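import Pool.Agent.U365.TAU.G
import Pool.Agent.Results.MP_391708_nt.FullConstantInClasses

/-!
# Primes of the form `n² + a` for aliquot sums, cototients and similar integers `a`, with the constant of Hardy and Littlewood

Let `s(m) = σ(m) - m` be the sum of the proper divisors of `m`. For almost all integers `m` with a prime factor larger than
`m^(1/2 + ρ)`, hence for at least one half of all integers `m` (lower density), the integers `a = s(m)`, `a = - s(m)`,
`a = m - φ(m)` and `a = φ(m) - m` satisfy: the product `h_a` converges; the sum of `log |n² + a|` over the `n ≤ y` for which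
`|n² + a|` is a prime is `h_a y + O(√|a| / (log |a|)^C)`, for ALL `y ≤ √|a| (log |a|)^(K/2)`; and some `|n² + a|` with
`1 ≤ n ≤ √(2 |a|)` is a prime. The same is true for the integers `a = ± (α m + β f(m))`, where `f` is any positive
multiplicative function of moderate growth with `f(p) = p + c`, `c ≠ 0`, for all large primes `p`, as long as
`α m + β f(m)` is positive and not very small.

These functions are not multiplicative and nothing is known on the distribution of their values in the residue classes to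
large moduli; the values are taken with large multiplicities and are sparse in some ranges, so that the known theorem (the
formula for almost all `a`, up to a small number of exceptions `|a| ≤ X`) says nothing on them.

Proof. Write `m = k p` with the large prime factor `p`. Then `α m + β f(m) = A p + B` with `A = α k + β f(k)` and
`B = β c f(k)`, where `A` is at most `x^(1/2 - ρ)`, up to a power of the logarithm. The theorem on the primes `n² + a` for
almost all `a` in a residue class modulo `A` (`FullConstantInClasses`, starting file) is applied for every `k`. It needs that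
`A` has at most `(log x)^T` divisors. This is shown for almost all `m`: `k = k' v` with another prime factor `v > x^δ`, so that
`A = A' v + B'` is a linear function of `v`, whose mean number of divisors is at most a power of the logarithm, by an
inequality of Wolke and Landreau (`U365/TAU`).
-/

set_option autoImplicit false

namespace Pool.Agent.Results.MP_391708_nt.AliquotConstants

open Finset Filter Topology
open Pool.Agent.Results.MP_391708_nt.FullConstantInClasses (IsConstant theta Good exceptions)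
open Pool.Agent.U365.AQG (Moderate LargePrime AlmostAll aliquot)
open Pool.Agent.U365.TAU (EBD ebd_of ebd_of_dyadic ebd_and general_t both_all density_all)
open H359R2 (tau)

/-- There is a prime `|t² + a|` with `1 ≤ t ≤ √(2 |a|)`, the product `h_a` converges, and for all `y ≤ √|a| (log |a|)^(K/2)`
the sum of `log |t² + a|` over the `t ≤ y` for which `|t² + a|` is a prime is `h_a y + O(√|a| / (log |a|)^C)`, with the
implied constant `1`. -/
def Formula (K C : ℕ) (a : ℤ) : Prop :=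
  (∃ t : ℕ, 1 ≤ t ∧ t ^ 2 ≤ 2 * a.natAbs ∧ ((t : ℤ) ^ 2 + a).natAbs.Prime) ∧
  ∃ H : ℝ, IsConstant a H ∧ ∀ y : ℕ, (y : ℝ) ^ 2 ≤ a.natAbs * Real.log a.natAbs ^ K →
    |theta a y - H * y| ≤ Real.sqrt a.natAbs / Real.log a.natAbs ^ C

/-- the property of both signs at a scale -/
def Both (C X n : ℕ) : Prop := Good C X n ∧ Good C X (-(n : ℤ))

open Classical in
/-- few exceptions at a scale -/
theorem few (C : ℕ) : ∀ ρ : ℝ, 0 < ρ → ∀ A T : ℕ, ∃ X₀ : ℕ, ∀ X : ℕ, X₀ ≤ X → ∀ q : ℕ, 1 ≤ q →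
    (q : ℝ) ≤ (X : ℝ) ^ (1 / 2 - ρ) → (tau q : ℝ) ≤ Real.log X ^ T → ∀ a : ℤ, (Int.gcd a q : ℝ) ≤ Real.log X ^ T →
      (((Icc 1 X).filter (fun n : ℕ => (n : ℤ) ≡ a [ZMOD q] ∧ ¬ Both C X n)).card : ℝ) ≤
        X / (q * Real.log X ^ A) := by
  intro ρ hρ A T
  obtain ⟨X₀, h0⟩ := Pool.Agent.Results.MP_391708_nt.FullConstantInClasses.result ρ hρ (A + 1) C T
  obtain ⟨X₁, h1⟩ := eventually_atTop.1 ((Real.tendsto_log_atTop.comp (tendsto_natCast_atTop_atTop (R := ℝ))).eventually_ge_atTop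
    (2 : ℝ))
  refine ⟨X₀ + X₁ + 1, fun X hX q hq hqX hτ a ha => ?_⟩
  have hL : 2 ≤ Real.log (X : ℝ) := h1 X (by omega)
  have e1 := h0 X (by omega) q hq hqX hτ a ha
  have e2 := h0 X (by omega) q hq hqX hτ (-a) (by rwa [Int.neg_gcd])
  unfold exceptions at e1 e2
  have hsub : ((Icc 1 X).filter (fun n : ℕ => (n : ℤ) ≡ a [ZMOD q] ∧ ¬ Both C X n)).card ≤
      ((Icc (-(X : ℤ)) X).filter (fun b : ℤ => b ≡ a [ZMOD q] ∧ ¬ Good C X b)).card +
        ((Icc (-(X : ℤ)) X).filter (fun b : ℤ => b ≡ -a [ZMOD q] ∧ ¬ Good C X b)).card := by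
    have f1 : (Icc 1 X).filter (fun n : ℕ => (n : ℤ) ≡ a [ZMOD q] ∧ ¬ Both C X n) ⊆
        (Icc 1 X).filter (fun n : ℕ => (n : ℤ) ≡ a [ZMOD q] ∧ ¬ Good C X n) ∪
          (Icc 1 X).filter (fun n : ℕ => (-(n : ℤ)) ≡ -a [ZMOD q] ∧ ¬ Good C X (-n)) := by
      intro n hn
      rw [mem_filter] at hn
      rw [mem_union, mem_filter, mem_filter]
      by_cases h : Good C X n
      · exact Or.inr ⟨hn.1, hn.2.1.neg, fun h2 => hn.2.2 ⟨h, h2⟩⟩
      · exact Or.inl ⟨hn.1, hn.2.1, h⟩
    refine (card_le_card f1).trans ((card_union_le _ _).trans (Nat.add_le_add ?_ ?_))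
    · apply card_le_card_of_injOn (fun n : ℕ => (n : ℤ))
      · intro n hn
        rw [mem_coe, mem_filter, mem_Icc] at hn
        show (n : ℤ) ∈ _
        rw [mem_coe, mem_filter, mem_Icc]
        exact ⟨⟨by omega, by exact_mod_cast hn.1.2⟩, hn.2⟩
      · intro n _ m _ h
        have h' : (n : ℤ) = m := h
        exact_mod_cast h'
    · apply card_le_card_of_injOn (fun n : ℕ => -(n : ℤ))
      · intro n hn
        rw [mem_coe, mem_filter, mem_Icc] at hn
        show (-(n : ℤ)) ∈ _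
        rw [mem_coe, mem_filter, mem_Icc]
        exact ⟨⟨by omega, by omega⟩, hn.2⟩
      · intro n _ m _ h
        have h' : (-(n : ℤ)) = -(m : ℤ) := h
        have h'' : (n : ℤ) = m := neg_injective h'
        exact_mod_cast h''
  have hsub' : (((Icc 1 X).filter (fun n : ℕ => (n : ℤ) ≡ a [ZMOD q] ∧ ¬ Both C X n)).card : ℝ) ≤
      (((Icc (-(X : ℤ)) X).filter (fun b : ℤ => b ≡ a [ZMOD q] ∧ ¬ Good C X b)).card : ℝ) +
        (((Icc (-(X : ℤ)) X).filter (fun b : ℤ => b ≡ -a [ZMOD q] ∧ ¬ Good C X b)).card : ℝ) := by exact_mod_cast hsub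
  refine hsub'.trans ((add_le_add e1 e2).trans ?_)
  have hq0 : (0 : ℝ) < q := by exact_mod_cast hq
  have hX0 : (0 : ℝ) ≤ X := Nat.cast_nonneg _
  have e : (X : ℝ) / (q * Real.log X ^ (A + 1)) = X / (q * Real.log X ^ A) * (1 / Real.log X) := by
    rw [pow_succ]
    field_simp
  have e3 : (1 : ℝ) / Real.log X ≤ 1 / 2 := one_div_le_one_div_of_le (by norm_num) hL
  have e4 : 0 ≤ (X : ℝ) / (q * Real.log X ^ A) := by positivity
  rw [e]
  nlinarith

theorem natAbs_pm (n : ℕ) : ((n : ℤ)).natAbs = n ∧ (-(n : ℤ)).natAbs = n := by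
  constructor <;> simp

theorem ebd (K C : ℕ) : EBD (1 / 2) (fun n => Formula K C n ∧ Formula K C (-(n : ℤ))) := by
  -- a prime
  have h1 : EBD (1 / 2) (fun n => (∃ t : ℕ, 1 ≤ t ∧ t ^ 2 ≤ 2 * n ∧ ((t : ℤ) ^ 2 + (n : ℤ)).natAbs.Prime) ∧
      (∃ t : ℕ, 1 ≤ t ∧ t ^ 2 ≤ 2 * n ∧ ((t : ℤ) ^ 2 + (-(n : ℤ))).natAbs.Prime)) := by
    refine ebd_of_dyadic (1 / 2) (by norm_num) (by norm_num) (fun X n => Both 0 X n) _ (few 0) ?_
    refine ⟨0, fun X _ n _ hn hg => ?_⟩
    obtain ⟨⟨⟨t, a1, a2, a3⟩, -⟩, ⟨s, b1, b2, b3⟩, -⟩ := hg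
    exact ⟨⟨t, a1, a2.trans hn, a3⟩, s, b1, b2.trans hn, b3⟩
  -- the formula
  have h2 : EBD (1 / 2) (fun n => (∃ H : ℝ, IsConstant n H ∧ ∀ y : ℕ, (y : ℝ) ^ 2 ≤ n * Real.log n ^ K →
      |theta n y - H * y| ≤ Real.sqrt n / Real.log n ^ C) ∧
      (∃ H : ℝ, IsConstant (-(n : ℤ)) H ∧ ∀ y : ℕ, (y : ℝ) ^ 2 ≤ n * Real.log n ^ K →
      |theta (-(n : ℤ)) y - H * y| ≤ Real.sqrt n / Real.log n ^ C)) := by
    refine ebd_of (1 / 2) (by norm_num) (by norm_num) K (fun C' X n => Both C' X n) _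
      (fun ρ hρ A C' T => few C' ρ hρ A T) (fun A => ?_)
    obtain ⟨X₁, hX₁⟩ := eventually_atTop.1 ((Real.tendsto_log_atTop.comp
      (tendsto_natCast_atTop_atTop (R := ℝ))).eventually_ge_atTop (1 : ℝ))
    obtain ⟨n₀, hn₀⟩ := eventually_atTop.1 ((Real.tendsto_log_atTop.comp
      (tendsto_natCast_atTop_atTop (R := ℝ))).eventually_ge_atTop (1 : ℝ))
    obtain ⟨X₂, hX₂⟩ := eventually_atTop.1 ((Pool.Agent.R460.GS.real_log A (s := 1 / 2) (by norm_num) ((n₀ : ℝ) + 1)))
    obtain ⟨X₃, hX₃⟩ := exists_nat_ge X₂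
    refine ⟨A + C, X₁ + X₃ + n₀ ^ 2 + 1, fun X hX n hn hnA hnK hg => ?_⟩
    have hL1 : 1 ≤ Real.log (X : ℝ) := hX₁ X (by omega)
    obtain ⟨g1, g2⟩ := hX₂ X (hX₃.trans (by exact_mod_cast (by omega : X₃ ≤ X)))
    have hX0 : (0 : ℝ) < X := by exact_mod_cast (by omega : 0 < X)
    have hLA : 0 < Real.log (X : ℝ) ^ A := by positivity
    have hnr : (0 : ℝ) < n := by exact_mod_cast hn
    -- n is large
    have hnn : n₀ ≤ n := by
      have e1 : (n₀ : ℝ) ≤ n := by
        refine le_trans ?_ hnA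
        rw [le_div_iff₀ hLA]
        have e2 : (n₀ : ℝ) ≤ (X : ℝ) ^ (1 / 2 : ℝ) := by
          have e3 : (((n₀ ^ 2 : ℕ) : ℝ)) ^ (1 / 2 : ℝ) = n₀ := by
            push_cast
            rw [← Real.sqrt_eq_rpow, Real.sqrt_sq (Nat.cast_nonneg _)]
          rw [← e3]
          apply Real.rpow_le_rpow (Nat.cast_nonneg _) _ (by norm_num)
          exact_mod_cast (by omega : n₀ ^ 2 ≤ X)
        calc (n₀ : ℝ) * Real.log X ^ A ≤ (X : ℝ) ^ (1 / 2 : ℝ) * (X : ℝ) ^ (1 / 2 : ℝ) :=
              mul_le_mul e2 g2 (by positivity) (by positivity)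
          _ = X := by
              rw [← Real.rpow_add hX0]
              norm_num
      exact_mod_cast e1
    have hln : 1 ≤ Real.log (n : ℝ) := hn₀ n hnn
    have hnX : (n : ℝ) ≤ X := by
      refine le_trans ?_ hnK
      exact le_mul_of_one_le_right hnr.le (one_le_pow₀ hln)
    have hlnX : Real.log (n : ℝ) ≤ Real.log X := Real.log_le_log hnr hnX
    have herr : Real.sqrt X / Real.log X ^ (A + C) ≤ Real.sqrt n / Real.log n ^ C := by
      have e1 : Real.sqrt X ≤ Real.sqrt n * Real.log X ^ A := by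
        have e2 : (X : ℝ) ≤ n * Real.log X ^ A := by
          rwa [div_le_iff₀ hLA] at hnA
        calc Real.sqrt X ≤ Real.sqrt (n * Real.log X ^ A) := Real.sqrt_le_sqrt e2
          _ = Real.sqrt n * Real.sqrt (Real.log X ^ A) := Real.sqrt_mul hnr.le _
          _ ≤ Real.sqrt n * Real.log X ^ A := by
              apply mul_le_mul_of_nonneg_left _ (Real.sqrt_nonneg _)
              rw [Real.sqrt_le_left hLA.le]
              have : 1 ≤ Real.log (X : ℝ) ^ A := one_le_pow₀ hL1
              nlinarith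
      calc Real.sqrt X / Real.log X ^ (A + C) ≤ (Real.sqrt n * Real.log X ^ A) / Real.log X ^ (A + C) :=
            div_le_div_of_nonneg_right e1 (by positivity)
        _ = Real.sqrt n / Real.log X ^ C := by
            rw [pow_add]
            field_simp
        _ ≤ Real.sqrt n / Real.log n ^ C := by
            apply div_le_div_of_nonneg_left (Real.sqrt_nonneg _) (by positivity)
            exact pow_le_pow_left₀ (by linarith) hlnX C
    obtain ⟨⟨-, H, a1, a2⟩, -, H', b1, b2⟩ := hg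
    have hy : ∀ y : ℕ, (y : ℝ) ^ 2 ≤ n * Real.log n ^ K → y ^ 2 ≤ X := by
      intro y hy
      exact_mod_cast hy.trans hnK
    exact ⟨⟨H, a1, fun y hyy => (a2 y (hy y hyy)).trans herr⟩, H', b1, fun y hyy => (b2 y (hy y hyy)).trans herr⟩
  refine Pool.Agent.U365.TAU.ebd_mono (ebd_and h1 h2) (fun n hn => ?_)
  obtain ⟨⟨a1, a2⟩, b1, b2⟩ := hn
  obtain ⟨k1, k2⟩ := natAbs_pm n
  unfold Formula
  rw [k1, k2]
  exact ⟨⟨a1, b1⟩, a2, b2⟩

open Classical in
/-- **Primes of the form `t² + a` for aliquot sums, cototients and similar integers `a`.** Let `f` be a positive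
multiplicative function of moderate growth with `f p = p + c`, `c ≠ 0`, for all large primes `p`, let `α`, `β` be nonzero
integers and `ρ > 0`. For almost all `m` with a prime factor `≥ m^(1/2 + ρ)` and `n = α m + β f(m) ≥ m / (log m)^C₀` the
integers `a = n` and `a = - n` satisfy `Formula K C a`. Euler's function and the sum of the divisors are examples. For almost
all `m` with a prime factor `≥ m^(1/2 + ρ)` this holds for the sum `s(m)` of the proper divisors and for the cototient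
`m - φ(m)`; this is so for a proportion of at least `1/2` of all integers `m`. -/
theorem result :
    (∀ (f : ℕ → ℕ) (c α β : ℤ) (C₀ K C : ℕ) (ρ : ℝ), Moderate f c → c ≠ 0 → α ≠ 0 → β ≠ 0 → 0 < ρ →
      AlmostAll (fun m => LargePrime (1 / 2 + ρ) m → (m : ℝ) / Real.log m ^ C₀ ≤ ((α * m + β * f m : ℤ) : ℝ) →
        Formula K C (α * m + β * f m) ∧ Formula K C (-(α * m + β * f m)))) ∧
    (Moderate Nat.totient (-1) ∧ Moderate (fun m => ∑ d ∈ m.divisors, d) 1) ∧
    (∀ (K C : ℕ) (ρ : ℝ), 0 < ρ → AlmostAll (fun m => LargePrime (1 / 2 + ρ) m →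
      (Formula K C (aliquot m) ∧ Formula K C (-(aliquot m : ℤ))) ∧
        Formula K C ((m : ℤ) - Nat.totient m) ∧ Formula K C (Nat.totient m - (m : ℤ)))) ∧
    ∀ (K C : ℕ) (δ : ℝ), δ < 1 / 2 → ∃ N₀ : ℕ, ∀ N : ℕ, N₀ ≤ N → δ * N ≤
      (((Icc 1 N).filter (fun m : ℕ => (Formula K C (aliquot m) ∧ Formula K C (-(aliquot m : ℤ))) ∧
        Formula K C ((m : ℤ) - Nat.totient m) ∧ Formula K C (Nat.totient m - (m : ℤ)))).card : ℝ) := by
  have hboth : ∀ (K C : ℕ) (ρ : ℝ), 0 < ρ → AlmostAll (fun m => LargePrime (1 - 1 / 2 + ρ) m →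
      (Formula K C (aliquot m) ∧ Formula K C (-(aliquot m : ℤ))) ∧
        Formula K C ((m : ℤ) - Nat.totient m) ∧ Formula K C (Nat.totient m - (m : ℤ))) := by
    intro K C ρ hρ
    have h := both_all (1 / 2) (by norm_num) (by norm_num) _ (ebd K C) 0 ρ hρ
    refine Pool.Agent.U365.AQG.almostAll_and h h 0 (fun m _ h1 _ hl => ?_)
    obtain ⟨⟨-, a1⟩, -, a2⟩ := h1 hl
    refine ⟨a1, ?_⟩
    have e : (((m - Nat.totient m : ℕ) : ℕ) : ℤ) = (m : ℤ) - Nat.totient m := Nat.cast_sub (Nat.totient_le m)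
    rw [e, neg_sub] at a2
    exact a2
  refine ⟨fun f c α β C₀ K C ρ hf hc hα hβ hρ => ?_,
    ⟨Pool.Agent.U365.AQG.moderate_totient, Pool.Agent.U365.AQG.moderate_sigma⟩, fun K C ρ hρ => ?_, fun K C δ hδ => ?_⟩
  · have h := general_t (1 / 2) (by norm_num) (by norm_num) _ (ebd K C) f c α β C₀ ρ hf hc hα hβ hρ
    rw [show (1 - 1 / 2 : ℝ) = 1 / 2 by norm_num] at h
    obtain ⟨m₀, hm₀⟩ := Pool.Agent.U365.AQG.log_large
    refine Pool.Agent.U365.AQG.almostAll_and h h (m₀ + 1) (fun m hm h1 _ hl hg => ?_)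
    have h2 := h1 hl hg
    have hm0 : (0 : ℝ) < m := by exact_mod_cast (by omega : 0 < m)
    have hlog : 0 < Real.log (m : ℝ) := by linarith [hm₀ m (by omega)]
    have hpos : (0 : ℝ) < ((α * m + β * f m : ℤ) : ℝ) := lt_of_lt_of_le (by positivity) hg
    have hpos' : 0 < α * m + β * f m := by exact_mod_cast hpos
    have e : (((α * m + β * f m).toNat : ℕ) : ℤ) = α * m + β * f m := Int.toNat_of_nonneg hpos'.le
    rw [e] at h2
    exact h2
  · have h := hboth K C ρ hρ
    rw [show (1 - 1 / 2 : ℝ) = 1 / 2 by norm_num] at h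
    exact h
  · obtain ⟨N₀, h⟩ := density_all (1 / 2) (by norm_num) _ (fun η hη => hboth K C η hη) δ hδ
    exact ⟨N₀, fun N hN => (h N hN).trans (Nat.cast_le.2 (Pool.Agent.U365.AQG.card_mono' (fun m hm => hm)))⟩

end Pool.Agent.Results.MP_391708_nt.AliquotConstants
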