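import Pool.Agent.U832.RH.Use
import Pool.Agent.U832.RH.QuI

/-!
# The almost primes `n ^ 2 + a` with three prime factors and the windows around them

Iwaniec, Richert: for infinitely many `n` (with the right order of magnitude) `n ^ 2 + a` has a bounded number of
prime factors (two, three). Here: these `n` see the other values without small prime factors as a Poisson process, up
to constant factors, in all intervals.
-/

set_option autoImplicit false

namespace Pool.Agent.Results.MP_391708_nt.P3InWindows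

open Finset Filter Pool.Agent.U832.RG Pool.Agent.U832.RH

/-- The `n` for which `n ^ 2 + a` has no prime factor `≤ y`. -/
def Rough (a : ℤ) (y : ℕ) : Set ℕ := {n | ∀ p : ℕ, p.Prime → p ≤ y → ¬ (p : ℤ) ∣ (n : ℤ) ^ 2 + a}

/-- The `n` for which `n ^ 2 + a` has at most `R` prime factors, counted with multiplicity, and all of them are
`≥ z`. -/
def AlmostPrime (a : ℤ) (R : ℕ) (z : ℝ) : Set ℕ :=
  {n | ((n : ℤ) ^ 2 + a).natAbs.primeFactorsList.length ≤ R ∧
    ∀ p : ℕ, p.Prime → (p : ℤ) ∣ (n : ℤ) ^ 2 + a → z ≤ p}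

/-- The `n` for which `n ^ 2 + a` has no prime factor `< z`. -/
def Free (a : ℤ) (z : ℝ) : Set ℕ := {n | ∀ p : ℕ, p.Prime → (p : ℝ) < z → ¬ (p : ℤ) ∣ (n : ℤ) ^ 2 + a}

open Classical in
/-- The number of the solutions of `m ^ 2 + a = 0` modulo `p`. -/
noncomputable def roots (a : ℤ) (p : ℕ) : ℕ := ((range p).filter (fun m : ℕ => (p : ℤ) ∣ (m : ℤ) ^ 2 + a)).card

/-- The product of `1 - roots a p / p` over the primes `p ≤ y`. -/
noncomputable def V (a : ℤ) (y : ℕ) : ℝ := ∏ p ∈ (Icc 1 y).filter Nat.Prime, (1 - (roots a p : ℝ) / p)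

section aux

open Pool.Agent.H373R2.T7 Pool.Agent.W123.RP Pool.Agent.Y882.SI
open Pool.Agent.TH464.PO (Sf)

lemma rough_iff (a : ℤ) (y n : ℕ) : n ∈ Rough a y ↔ Sf (Pool.Agent.W123.RU.Poly.Q (sg (QF a))) y n := by
  unfold Sf Rough
  simp only [sg_Q, QF_eval, mem_pz, Set.mem_ofPred_eq]
  constructor
  · exact fun h p hp => h p hp.2 hp.1
  · exact fun h p hp hpy => h p ⟨hpy, hp⟩

lemma V_eq (a : ℤ) (y : ℕ) : Vq (Pool.Agent.W123.RU.Poly.Q (sg (QF a))) y = V a y := by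
  classical
  have hpz : pz y = (Icc 1 y).filter Nat.Prime := by
    ext p
    rw [mem_pz, mem_filter, mem_Icc]
    constructor
    · exact fun h => ⟨⟨h.2.one_lt.le, h.1⟩, h.2⟩
    · exact fun h => ⟨h.1.2, h.2⟩
  unfold Vq V
  rw [hpz]
  apply Finset.prod_congr rfl
  intro p _
  congr 3
  unfold roots nuB
  congr 1
  ext m
  rw [mem_filter, mem_filter, sg_Q, QF_eval]

end aux

/-- Let `-a` not be a square, `0 < θ ≤ 1`, and let `R` be an integer with `9 / 8 + 25 / (12 θ) < R + 1` (for instance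
`R = 3`, `3 / 4 ≤ θ ≤ 1`). There are `c, C > 0` such that for all `J`, `L`, `x₀`, all `ε > 0`, all large `r` and all
large `X`, with `y = ⌊X ^ (1 / r)⌋`: for ALL intervals `(Z, Z + Y]` with `X ^ θ ≤ Y`, `Z + Y ≤ X`, all disjoint windows
`(d j, e j] ⊆ (0, T]`, `j < J`, `T V ≤ x₀`, all `s ≤ T` outside of them and all `k j ≤ L`, let `Π` be the product of
the probabilities that a Poisson variable of mean `(e j - d j) V` has the value `k j`. Then
(1) the number of the `n` in `(Z, Z + Y]` for which `(n + s) ^ 2 + a` has at most `R` prime factors, all of them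
`≥ X ^ (θ / 5)`, and for which exactly `k j` of the `m` in `(n + d j, n + e j]` have `m ^ 2 + a` free of prime factors
`≤ y`, for all `j`, is at least `(c Π - ε) Y / log X`;
(2) the number of the `n` with the same windows for which `(n + s) ^ 2 + a` has no prime factor `< X ^ (θ / 4)`
is at most `(C Π + ε) Y / log X`. -/
theorem result (a : ℤ) (ha : ∀ m : ℤ, a ≠ -m ^ 2) (θ : ℝ) (hθ : 0 < θ) (hθ1 : θ ≤ 1) (R : ℕ)
    (hR : 9 / 8 + 25 / (12 * θ) < R + 1) :
    ∃ c C : ℝ, 0 < c ∧ 0 < C ∧ ∀ (J L : ℕ) (x₀ ε : ℝ), 0 < ε → ∃ r₀ : ℕ, ∀ r : ℕ, r₀ ≤ r → ∀ᶠ X : ℕ in atTop,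
      ∀ y : ℕ, y = ⌊(X : ℝ) ^ (1 / (r : ℝ))⌋₊ →
      ∀ Z Y T : ℕ, Z + Y ≤ X → (X : ℝ) ^ θ ≤ Y → T * V a y ≤ x₀ →
      ∀ (s : ℕ) (d e k : Fin J → ℕ), Windows T s d e → (∀ j, k j ≤ L) →
      (c * ∏ j, poisson (k j) ((e j - d j : ℕ) * V a y) - ε) * (Y / Real.log X) ≤
        seen (AlmostPrime a R ((X : ℝ) ^ (θ / 5))) (Rough a y) s d e k Z Y ∧
      (seen (Free a ((X : ℝ) ^ (θ / 4))) (Rough a y) s d e k Z Y : ℝ) ≤
        (C * ∏ j, poisson (k j) ((e j - d j : ℕ) * V a y) + ε) * (Y / Real.log X) := by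
  obtain ⟨w, hw1, hw2, c, C, hc, hC, H⟩ := quad_law a ha θ hθ hθ1 R hR
  refine ⟨c, C, hc, hC, ?_⟩
  intro J L x₀ ε hε
  obtain ⟨r₀, H'⟩ := H J L x₀ ε hε
  refine ⟨r₀, fun r hr => ?_⟩
  filter_upwards [H' r hr, eventually_ge_atTop 1] with X hX hX1
  intro y hy Z Y T hZ hY hT s d e k hwin hk
  have hX1r : (1 : ℝ) ≤ X := by exact_mod_cast hX1
  have h := hX y hy Z Y T hZ hY (by rw [V_eq]; exact hT) s d e k hwin hk
  rw [V_eq] at h
  obtain ⟨h1, h2⟩ := h
  refine ⟨h1.trans ?_, le_trans ?_ h2⟩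
  · have h3 := cntAP_le (Pool.Agent.Y882.SI.QF a) R ((X : ℝ) ^ w) y s d e k Z Y
      (AlmostPrime a R ((X : ℝ) ^ (θ / 5))) (Rough a y) (rough_iff a y) (fun m hm1 hm2 => by
        rw [Pool.Agent.Y882.SI.QF_eval] at hm1 hm2
        refine ⟨hm1, fun p hp hpd => ?_⟩
        refine le_trans ?_ (hm2 p hp (Int.natCast_dvd.1 hpd))
        exact Real.rpow_le_rpow_of_exponent_le hX1r hw1)
    exact_mod_cast h3
  · have h3 := le_cntR (Pool.Agent.Y882.SI.QF a) ((X : ℝ) ^ w) y s d e k Z Y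
      (Free a ((X : ℝ) ^ (θ / 4))) (Rough a y) (rough_iff a y) (fun m hm p hp hpw => by
        rw [Pool.Agent.Y882.SI.QF_eval]
        exact hm p hp (hpw.trans_le (Real.rpow_le_rpow_of_exponent_le hX1r hw2)))
    exact_mod_cast h3

end Pool.Agent.Results.MP_391708_nt.P3InWindows
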