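import Pool.Agent.U746.RR.Fam
import Pool.Agent.U746.RR.Quad

set_option autoImplicit false

/-!
# Primes `n² + a` at the prime values of other polynomials, for almost all `a`

Let `F_1, …, F_g ∈ ℤ[X]` be distinct irreducible polynomials of positive degree and with positive leading coefficients, and
let `S` be an ARBITRARY set of positive integers `n` at which all values `F_1(n), …, F_g(n)` are primes (or at which all these
values are free of prime factors `≤ n^(1/m)`, for a fixed `m`). For almost all `a ≤ H`, `x² / B ≤ H ≤ B x²`, the number of the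
`n ≤ y` in `S` for which `n² + a` is a prime is, for all `y ≤ x`,

`(h_a / 2) S_w(y) / log x + O(ε x / (log x) ^ (g + 1))`,

where `h_a` is the constant of Hardy and Littlewood (the infinite product) and `S_w(y)` is the number of the `n ≤ y` in `S`,
corrected by the distribution of `S` in the residue classes modulo the product of the primes `≤ w`; `w` does not depend on
`x`. The error is as small as the expected number of the `n ≤ x` at which `F_1, …, F_g` and `n² + a` are all primes. So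
the primes `n² + a` among the arguments of `S`, however sparse and irregular, are decided by a fixed finite amount of
local information about `S`: for instance, for almost all `a`, the number of the `n ≤ x` with `n² + 1` and `n² + a` both
prime is given by the number of the primes `n² + 1`, `n ≤ x`, in the residue classes modulo a fixed integer.
-/

namespace Pool.Agent.Results.MP_391708_nt.PrimeValueArguments

open Finset Filter Topology Polynomial

/-- The arguments `n` at which all the values `F_i(n)` are primes, or are all free of prime factors `p ≤ n ^ (1/m)`. -/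
def Arguments {g : ℕ} (F : Fin g → ℤ[X]) (m : ℕ) : Set ℕ :=
  {n | (∀ i, ((F i).eval (n : ℤ)).toNat.Prime) ∨ ∀ p : ℕ, p.Prime → p ^ m ≤ n → ∀ i, ¬ (p : ℤ) ∣ (F i).eval (n : ℤ)}

/-- The product over the odd primes `p ≤ z` which defines `h_a` for `z → ∞`. -/
noncomputable def product (a : ℤ) (z : ℕ) : ℝ :=
  ∏ p ∈ (Icc 3 z).filter Nat.Prime, (1 - (jacobiSym (-a) p : ℝ) / (p - 1))

open Classical in
/-- The number of the `1 ≤ n ≤ y` in `S` for which `n² + a` is a prime. -/
noncomputable def primesAt (a : ℕ) (S : Set ℕ) (y : ℕ) : ℕ :=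
  ((Icc 1 y).filter (fun n : ℕ => n ∈ S ∧ (n ^ 2 + a).Prime)).card

open Classical in
/-- The number of the `1 ≤ n ≤ y` in `S` for which no prime `p ≤ w` divides `n² + a`. -/
noncomputable def sifted (a : ℕ) (S : Set ℕ) (w y : ℕ) : ℕ :=
  ((Icc 1 y).filter (fun n : ℕ => n ∈ S ∧ ∀ p : ℕ, p.Prime → p ≤ w → ¬ p ∣ n ^ 2 + a)).card

/-- The number of the zeros of `n² + a` modulo `p`. -/
def rho (a p : ℕ) : ℕ := ((range p).filter (fun r : ℕ => p ∣ r ^ 2 + a)).card

/-- `S_w(y)`: the number of the elements `n ≤ y` of `S`, corrected by the local densities at the primes `p ≤ w`. -/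
noncomputable def corrected (a : ℕ) (S : Set ℕ) (w y : ℕ) : ℝ :=
  sifted a S w y / ∏ p ∈ (Icc 1 w).filter Nat.Prime, (1 - (rho a p : ℝ) / p)

/-- The formula for one `a`. -/
def Good (g : ℕ) (S : Set ℕ) (ε : ℝ) (w x a : ℕ) : Prop :=
  ∃ h : ℝ, 0 < h ∧ Tendsto (product a) atTop (𝓝 h) ∧ ∀ y ≤ x,
    |(primesAt a S y : ℝ) - h / 2 * corrected a S w y / Real.log x| ≤ ε * x / Real.log x ^ (g + 1)

open Classical in
/-- The `1 ≤ a ≤ H` for which the formula fails. -/
noncomputable def exceptions (g : ℕ) (S : Set ℕ) (ε : ℝ) (w x H : ℕ) : Finset ℕ :=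
  (Icc 1 H).filter (fun a : ℕ => ¬ Good g S ε w x a)

lemma adm (a : ℕ) (ha : 1 ≤ a) : Pool.Agent.W468.ConjF.Admissible 1 0 (a : ℤ) := by
  refine ⟨one_pos, fun d h1 _ _ => isUnit_of_dvd_one h1, ?_, ?_⟩
  · rintro ⟨h1, _⟩
    norm_num at h1
  · rintro ⟨r, hr⟩
    have h1 : (0 : ℤ) ≤ r * r := mul_self_nonneg r
    have h2 : (1 : ℤ) ≤ a := by exact_mod_cast ha
    nlinarith

lemma part_eq (a : ℕ) (z : ℕ) : product a z = 2 * Pool.Agent.W468.ConjF.CF 1 0 (a : ℤ) z := by
  unfold Pool.Agent.W468.ConjF.CF product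
  have h0 : (if (2 : ℤ) ∣ 1 + 0 then (1 : ℝ) else 1 / 2) = 1 / 2 := by norm_num
  have h1 : (range (z + 1)).filter (fun p : ℕ => p.Prime ∧ 3 ≤ p ∧ (p : ℤ) ∣ 1 ∧ (p : ℤ) ∣ 0) = ∅ := by
    rw [filter_eq_empty_iff]
    rintro p _ ⟨h1, h2, h3, _⟩
    have := Int.le_of_dvd one_pos h3
    omega
  have h2 : (range (z + 1)).filter (fun p : ℕ => p.Prime ∧ 3 ≤ p ∧ ¬ (p : ℤ) ∣ 1) = (Icc 3 z).filter Nat.Prime := by
    ext p
    simp only [mem_filter, mem_range, mem_Icc]
    constructor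
    · rintro ⟨h1, h2, h3, h4⟩
      exact ⟨⟨h3, by omega⟩, h2⟩
    · rintro ⟨⟨h1, h2⟩, h3⟩
      refine ⟨by omega, h3, h1, fun h => ?_⟩
      have := Int.le_of_dvd one_pos h
      omega
  rw [h0, h1, h2, prod_empty, mul_one, ← mul_assoc]
  norm_num
  apply prod_congr rfl
  intro p hp
  rw [mem_filter, mem_Icc] at hp
  have h3 : jacobiSym (-(4 * (a : ℤ))) p = jacobiSym (-(a : ℤ)) p := by
    have e1 : -(4 * (a : ℤ)) = 2 ^ 2 * (-(a : ℤ)) := by ring
    rw [e1, jacobiSym.mul_left]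
    have h4 : jacobiSym (2 ^ 2) p = 1 := by
      apply jacobiSym.sq_one'
      have h5 : Nat.Coprime 2 p := by
        rw [Nat.coprime_primes Nat.prime_two hp.2]
        omega
      exact h5
    rw [h4, one_mul]
  rw [h3]

lemma NP_eq (a : ℕ) (S : Set ℕ) (y : ℕ) :
    Pool.Agent.U746.AP.NP (Pool.Agent.U746.RR.G2 1 0) (fun _ => 1) (Pool.Agent.U746.RR.v1 a) S y = primesAt a S y := by
  classical
  unfold Pool.Agent.U746.AP.NP primesAt
  congr 1
  apply filter_congr
  intro n _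
  have e1 : ∀ i, Pool.Agent.H373R2.T7.vl (Pool.Agent.U746.RR.G2 1 0) (fun _ => 1) (Pool.Agent.U746.RR.v1 a) i n =
      ((n ^ 2 + a : ℕ) : ℤ) := by
    intro i
    rw [Pool.Agent.U746.RR.vl_one]
    push_cast; ring
  constructor
  · rintro ⟨h1, h2⟩
    refine ⟨h1, ?_⟩
    have := h2 0
    rwa [e1, Int.toNat_natCast] at this
  · rintro ⟨h1, h2⟩
    refine ⟨h1, fun i => ?_⟩
    rwa [e1, Int.toNat_natCast]

lemma MP_eq (a : ℕ) (S : Set ℕ) (w y : ℕ) :
    Pool.Agent.U746.AP.MP (Pool.Agent.U746.RR.G2 1 0) (fun _ => 1) (Pool.Agent.U746.RR.v1 a) S w y = sifted a S w y := by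
  classical
  unfold Pool.Agent.U746.AP.MP sifted
  congr 1
  apply filter_congr
  intro n _
  have e1 : ∀ i, Pool.Agent.H373R2.T7.vl (Pool.Agent.U746.RR.G2 1 0) (fun _ => 1) (Pool.Agent.U746.RR.v1 a) i n =
      ((n ^ 2 + a : ℕ) : ℤ) := by
    intro i
    rw [Pool.Agent.U746.RR.vl_one]
    push_cast; ring
  constructor
  · rintro ⟨h1, h2⟩
    refine ⟨h1, fun p hp hw hd => ?_⟩
    have := h2 0 p (Pool.Agent.H373R2.T7.mem_pz.2 ⟨hw, hp⟩)
    rw [e1] at this
    exact this (by exact_mod_cast hd)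
  · rintro ⟨h1, h2⟩
    refine ⟨h1, fun i p hp hd => ?_⟩
    obtain ⟨h3, h4⟩ := Pool.Agent.H373R2.T7.mem_pz.1 hp
    rw [e1] at hd
    exact h2 p h4 h3 (by exact_mod_cast hd)

lemma rho_eq (a p : ℕ) : ((range p).filter (fun r : ℕ => (p : ℤ) ∣ 1 * (r : ℤ) ^ 2 + 0 * r + (a : ℤ))).card = rho a p := by
  unfold rho
  congr 1
  apply filter_congr
  intro r _
  have e1 : 1 * (r : ℤ) ^ 2 + 0 * r + (a : ℤ) = ((r ^ 2 + a : ℕ) : ℤ) := by push_cast; ring
  rw [e1]
  exact Int.natCast_dvd_natCast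

/-- **The primes `n² + a` in arbitrary sets of arguments at which other polynomials are prime, for almost all `a`.** -/
theorem result {g : ℕ} (F : Fin g → ℤ[X]) (hF : ∀ i, Irreducible (F i)) (hd : ∀ i, 0 < (F i).natDegree)
    (hl : ∀ i, 0 < (F i).leadingCoeff) (hinj : Function.Injective F) (m B : ℕ) (hB : 1 ≤ B) (ε : ℝ) (hε : 0 < ε) :
    ∃ w₀ : ℕ, ∀ w : ℕ, w₀ ≤ w → ∃ x₀ : ℕ, ∀ x : ℕ, x₀ ≤ x → ∀ H : ℕ, H ≤ B * x ^ 2 → x ^ 2 ≤ B * H →
      ∀ S : Set ℕ, S ⊆ Arguments F m → ((exceptions g S ε w x H).card : ℝ) ≤ ε * H := by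
  classical
  obtain ⟨T, C, M, hM, hT, hsub, K, hK0, x1, hK⟩ := Pool.Agent.U746.RR.fam F hF hd hl hinj m
  set K' : ℝ := max K 1 with hK'
  have hK'1 : 1 ≤ K' := le_max_right _ _
  have hK'0 : 0 < K' := by linarith
  obtain ⟨w₀, h0⟩ := Pool.Agent.U746.RR.quad 1 0 one_pos C M hM B hB (ε / K') (by positivity)
  refine ⟨w₀, fun w hw => ?_⟩
  obtain ⟨x₀, h1⟩ := h0 w hw T hT
  refine ⟨max (max x₀ x1) 3, fun x hx H hHx hxH S hS => ?_⟩
  have b1 : x₀ ≤ x := ((le_max_left _ _).trans (le_max_left _ _)).trans hx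
  have b2 : x1 ≤ x := ((le_max_right _ _).trans (le_max_left _ _)).trans hx
  have b3 : 3 ≤ x := (le_max_right _ _).trans hx
  have hL0 : 0 < Real.log x := Real.log_pos (by exact_mod_cast (by omega : 1 < x))
  have h2 := h1 x b1 H hHx hxH S (hS.trans hsub)
  have h3 : ε / K' * H ≤ ε * H := by
    apply mul_le_mul_of_nonneg_right _ (Nat.cast_nonneg H)
    exact div_le_self hε.le hK'1
  refine le_trans ?_ (h2.trans h3)
  apply Nat.cast_le.2
  apply card_le_card
  intro a ha
  unfold exceptions at ha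
  rw [mem_filter] at ha ⊢
  refine ⟨ha.1, adm a (mem_Icc.1 ha.1).1, ?_⟩
  rintro ⟨L, hL, hLt, hy⟩
  apply ha.2
  refine ⟨2 * L, by linarith, ?_, fun y hyx => ?_⟩
  · have h4 := hLt.const_mul 2
    refine h4.congr fun z => ?_
    rw [part_eq]
  · have h4 := hy y hyx
    rw [NP_eq, MP_eq] at h4
    simp only [rho_eq] at h4
    have e1 : 2 * L / 2 * corrected a S w y / Real.log x = L * ((sifted a S w y : ℝ) /
        ∏ p ∈ Pool.Agent.H373R2.T7.pz w, (1 - (rho a p : ℝ) / p)) / Real.log x := by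
      unfold corrected Pool.Agent.H373R2.T7.pz
      ring
    rw [e1]
    refine h4.trans ?_
    have h5 := hK x b2
    have h6 : (Pool.Agent.U746.AS.cntS T x : ℝ) ≤ K' * (x / Real.log x ^ g) :=
      h5.trans (mul_le_mul_of_nonneg_right (le_max_left _ _) (by positivity))
    calc ε / K' * (Pool.Agent.U746.AS.cntS T x : ℝ) / Real.log x ≤ ε / K' * (K' * (x / Real.log x ^ g)) / Real.log x := by
          gcongr
      _ = ε * x / Real.log x ^ (g + 1) := by
          rw [pow_succ]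
          field_simp

end Pool.Agent.Results.MP_391708_nt.PrimeValueArguments
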