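import Pool.Agent.U845.QS.Quant

set_option autoImplicit false

/-!
# The primes `|n² + a|` along arbitrary sequences of `n`, for almost all `a`, with a saving of any power of the logarithm

For all `A` and `C` there is a `B` such that for every `E`, all large `X`, all `N` with
`X / (log X)^C ≤ N² ≤ X (log X)^C`, all `z` with `(log X)^B ≤ z ≤ (log X)^E` and ALL weights `|w(n)| ≤ 1`, for example
the indicator function of an arbitrary set of integers `n`: for all but `X / (log X)^A` of the integers `|a| ≤ X` the sum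
of `w(n) log|n² + a|` over the `n ≤ y` for which `|n² + a|` is prime is `∏_{p ≤ z} (1 - 1/p)⁻¹` times the sum of `w(n)`
over the `n ≤ y` for which `n² + a` has no prime factor `≤ z`, up to an error of at most `N / (log X)^A`, for all
`y ≤ N`. The constants are uniform in `w`; the exceptional set depends on `w`, of course.

Method (`Agent/U845`). For a function `F` on the integers `|m| ≤ M` the second moment over ALL integers `a` of
`∑ w(n) F(n² + a)` is at most the maximum of the exponential sum of `F` times the square root of its second moment times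
the square root of the additive energy of the squares. The energy is `O(N² log² N)` for arbitrary weights, and the primes
minus their sieve model with the primes `≤ z` have exponential sums `≤ M / (log M)^U` everywhere.
-/

namespace Pool.Agent.Results.MP_391708_nt.WeightsLogPowerSaving

open Finset

/-- The sum of `w n · log|n² + a|` over the `n`, `1 ≤ n ≤ y`, for which `|n² + a|` is prime. -/
noncomputable def theta (w : ℕ → ℝ) (a : ℤ) (y : ℕ) : ℝ :=
  ∑ n ∈ (Icc 1 y).filter (fun n : ℕ => ((n : ℤ) ^ 2 + a).natAbs.Prime),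
    w n * Real.log (((n : ℤ) ^ 2 + a).natAbs : ℝ)

/-- The sum of the weights `w n` over the `n`, `1 ≤ n ≤ y`, for which no prime `p ≤ z` divides `n² + a`. -/
noncomputable def R (z : ℕ) (w : ℕ → ℝ) (a : ℤ) (y : ℕ) : ℝ :=
  ∑ n ∈ (Icc 1 y).filter (fun n : ℕ => ∀ p ≤ z, p.Prime → ¬ (p : ℤ) ∣ (n : ℤ) ^ 2 + a), w n

/-- The product of the numbers `1 - 1 / p` over the primes `p ≤ z`. -/
noncomputable def V (z : ℕ) : ℝ := ∏ p ∈ (Icc 1 z).filter Nat.Prime, (1 - 1 / (p : ℝ))

/-- **The primes `|n² + a|` with arbitrary weights, saving any power of the logarithm.** -/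
theorem result (A C : ℕ) : ∃ B : ℕ, ∀ E : ℕ, ∃ X₀ : ℕ, ∀ X : ℕ, X₀ ≤ X → ∀ N z : ℕ,
    (N : ℝ) ^ 2 ≤ X * Real.log X ^ C → (X : ℝ) ≤ N ^ 2 * Real.log X ^ C →
    Real.log X ^ B ≤ z → (z : ℝ) ≤ Real.log X ^ E → ∀ w : ℕ → ℝ, (∀ n, |w n| ≤ 1) →
    ∃ Ex ⊆ Icc (-(X : ℤ)) X, (#Ex : ℝ) ≤ X / Real.log X ^ A ∧
    ∀ a ∈ Icc (-(X : ℤ)) X, a ∉ Ex → ∀ y ≤ N,
      |theta w a y - (V z)⁻¹ * R z w a y| ≤ N / Real.log X ^ A := by
  obtain ⟨B, hB⟩ := Pool.Agent.U845.QS.quant A C
  refine ⟨B, fun E => ?_⟩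
  obtain ⟨X₀, h⟩ := hB E
  refine ⟨X₀, fun X hX N z h1 h2 h3 h4 w hw => ?_⟩
  obtain ⟨Ex, e1, e2, e3⟩ := h X hX N z h1 h2 h3 h4 w hw
  refine ⟨Ex, e1, e2, fun a ha hex y hy => ?_⟩
  have hM : Pool.Agent.U845.QR.Mw z w a y = (V z)⁻¹ * R z w a y := by
    unfold Pool.Agent.U845.QR.Mw R
    rw [sum_filter, mul_sum]
    refine sum_congr rfl fun n _ => ?_
    rw [Pool.Agent.U845.QR.lamz_eq]
    have hc : (∀ p ∈ Pool.Agent.H373R2.T7.pz z, ¬ (p : ℤ) ∣ (n : ℤ) ^ 2 + a) ↔
        (∀ p ≤ z, p.Prime → ¬ (p : ℤ) ∣ (n : ℤ) ^ 2 + a) := by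
      constructor
      · intro h p hp hpp
        exact h p (Pool.Agent.H373R2.T7.mem_pz.2 ⟨hp, hpp⟩)
      · intro h p hp
        exact h p (Pool.Agent.H373R2.T7.mem_pz.1 hp).1 (Pool.Agent.H373R2.T7.mem_pz.1 hp).2
    have hV : Pool.Agent.H373R2.T7.Vz z = V z := rfl
    by_cases hq : ∀ p ≤ z, p.Prime → ¬ (p : ℤ) ∣ (n : ℤ) ^ 2 + a
    · rw [if_pos hq, if_pos (hc.2 hq), hV]
      ring
    · rw [if_neg hq, if_neg (fun h => hq (hc.1 h))]
      ring
  have h5 := e3 a ha hex y hy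
  rw [hM] at h5
  exact h5

end Pool.Agent.Results.MP_391708_nt.WeightsLogPowerSaving
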